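import Pool.Agent.Lib_helper31.DLN.Fin

/-!
# MP_4f5c90_nt: Lang's height inequality in dimension `N` for maps `f i = x i ^ d + lower terms`

Let `f` be a polynomial map of affine space of dimension `N` over a number field `K` whose `i`-th
component is `x i ^ d` plus terms of total degree less than `d`; it extends to a morphism of
projective space.  The radius of `f` at a place `v` is the smallest `R ≥ 1` such that every
coefficient of a monomial `x ^ α` of degree less than `d` is at most `R ^ (d - |α|)`.  The height
`h(f)` is the normalised sum of the logarithms of the radii; it bounds the moduli height.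

A place is split if two points `z`, `z'` over an extension with images of size at most
`R ^ (1 + t)` have distance at least `R ^ (1 - t)`, `t = (d - 1) / (16 (N + 1) d ^ N)`; it is thin
if such a point has distance at least `R ^ (1 - t)` from all rational points, in a fixed coordinate.
The theorem: if a fixed part of `h(f)` comes from the thin places and at most `s` places which
are split or, for centred maps, dominated by the constant terms, then the rational points of small
canonical height lie on a hypersurface of bounded degree, and the canonical height of a point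
with Zariski dense orbit is at least a constant times `h(f) + 1`.

Proof idea.  A function `φ_γ` for every exponent `γ` of degree at most `d k`: the product of the
coordinates of `f^j(x)` to the powers `γ_(i,j)`, the digits of `γ_i` in base `d`.  These functions
have leading monomials `x ^ γ` and are small at points of small height, at all places, because
their number of factors is logarithmic in `k`.  If no hypersurface of degree `d k` contains the
small points, then there are points for which the determinant of the `φ_γ` is not zero.  At a split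
place multiply the row of the point `P` by `(P_i - z_i) ^ k` and expand in the system
`(f - f(z)) ^ a x ^ b`: the rank constraint given by the vanishing to order `k` at `z` shows that
the determinant is at most `R ^ (- c k M)`, `M` its size.  This contradicts the product formula.
For orbits, the ideals of the coefficients of `H(f^j(x))` for the universal `H`, `f`, `x` are
stationary, so a bounded number of points of the orbit in a hypersurface of bounded degree is
enough.  For centred maps the trace of a coordinate on a fibre is zero, so a large point of the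
fibre is far from another point of the fibre.
-/

set_option autoImplicit false

namespace Pool.Agent.Results.MP_4f5c90_nt.AffineSpaceHeavyPlaces

open MvPolynomial NumberField Filter

section definitions

variable {N : ℕ} {K : Type} [Field K]

/-- `f i` is `x i ^ d` plus terms of total degree less than `d` -/
def IsMonicMap (d : ℕ) (f : Fin N → MvPolynomial (Fin N) K) : Prop :=
  ∀ i, (f i - X i ^ d).totalDegree < d

/-- the map of affine space given by `f` -/
noncomputable def polyMap (f : Fin N → MvPolynomial (Fin N) K) (x : Fin N → K) : Fin N → K :=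
  fun i => eval x (f i)

/-- the radius of `f` at `v`: the smallest `R ≥ 1` such that `|a| ≤ R ^ (d - |α|)` for all
coefficients `a` of monomials `x ^ α` of degree `|α| < d` -/
noncomputable def radius (v : AbsoluteValue K ℝ) (d : ℕ) (f : Fin N → MvPolynomial (Fin N) K) : ℝ :=
  sInf {R : ℝ | 1 ≤ R ∧ ∀ i, ∀ α : Fin N →₀ ℕ, α.degree < d →
    v (coeff α (f i)) ≤ R ^ (d - α.degree)}

/-- the number `t` -/
noncomputable def dev (N d : ℕ) : ℝ := ((d : ℝ) - 1) / (16 * ((N + 1) * (d : ℝ) ^ N))

/-- split: two points over an extension, with images of size at most `R ^ (1 + t)`, have distance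
at least `R ^ (1 - t)` -/
def IsSplit (v : AbsoluteValue K ℝ) (d : ℕ) (f : Fin N → MvPolynomial (Fin N) K) : Prop :=
  ∃ (L : Type) (_ : Field L) (_ : Algebra K L) (w : AbsoluteValue L ℝ) (z z' : Fin N → L)
    (i : Fin N), (∀ a : K, w (algebraMap K L a) = v a) ∧
    (∀ j, w (aeval z (f j)) ≤ radius v d f ^ (1 + dev N d)) ∧
    (∀ j, w (aeval z' (f j)) ≤ radius v d f ^ (1 + dev N d)) ∧
    radius v d f ^ (1 - dev N d) ≤ w (z i - z' i)

/-- thin: a point over an extension, with image of size at most `R ^ (1 + t)`, has a coordinate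
whose distance from `K` is at least `R ^ (1 - t)` -/
def IsThin (v : AbsoluteValue K ℝ) (d : ℕ) (f : Fin N → MvPolynomial (Fin N) K) : Prop :=
  ∃ (L : Type) (_ : Field L) (_ : Algebra K L) (w : AbsoluteValue L ℝ) (z : Fin N → L)
    (i : Fin N), (∀ a : K, w (algebraMap K L a) = v a) ∧
    (∀ j, w (aeval z (f j)) ≤ radius v d f ^ (1 + dev N d)) ∧
    ∀ a : K, radius v d f ^ (1 - dev N d) ≤ w (z i - algebraMap K L a)

/-- centred: the monomial `x i ^ (d - 1)` does not occur in `f i` -/
def IsCentred (d : ℕ) (f : Fin N → MvPolynomial (Fin N) K) : Prop :=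
  ∀ i, coeff (Finsupp.single i (d - 1)) (f i) = 0

/-- the constant terms dominate: `|a| ≤ R ^ ((1 - ε) (d - |α|))` for all coefficients `a` of
monomials `x ^ α` with `0 < |α| < d` -/
def ConstDominated (ε : ℝ) (v : AbsoluteValue K ℝ) (d : ℕ)
    (f : Fin N → MvPolynomial (Fin N) K) : Prop :=
  ∀ i, ∀ α : Fin N →₀ ℕ, 0 < α.degree → α.degree < d →
    v (coeff α (f i)) ≤ radius v d f ^ ((1 - ε) * ((d : ℝ) - α.degree))

/-- the orbit of `x` is Zariski dense -/
def HasDenseOrbit (f : Fin N → MvPolynomial (Fin N) K) (x : Fin N → K) : Prop :=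
  ∀ H : MvPolynomial (Fin N) K, (∀ n, eval ((polyMap f)^[n] x) H = 0) → H = 0

variable [NumberField K]

/-- normalised sum over all places, infinite places with multiplicity `1` or `2` -/
noncomputable def placeSum (K : Type) [Field K] [NumberField K]
    (g : AbsoluteValue K ℝ → ℝ) : ℝ :=
  (∑ v : InfinitePlace K, (v.mult : ℝ) * g v.val + ∑ᶠ v : FinitePlace K, g v.val) /
    Module.finrank ℚ K

/-- the height of `f`: the normalised sum of the logarithms of the radii -/
noncomputable def mapHeight (d : ℕ) (f : Fin N → MvPolynomial (Fin N) K) : ℝ :=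
  placeSum K fun v => Real.log (radius v d f)

open Classical in
/-- the part of the height of `f` at the places in `V` and at the thin places -/
noncomputable def share (V : Finset (AbsoluteValue K ℝ)) (d : ℕ)
    (f : Fin N → MvPolynomial (Fin N) K) : ℝ :=
  placeSum K fun v => if v ∈ V ∨ IsThin v d f then Real.log (radius v d f) else 0

/-- the absolute logarithmic height of the point `(1 : x 1 : ... : x N)` -/
noncomputable def height (x : Fin N → K) : ℝ :=
  Height.logHeight (Fin.cons 1 x : Fin (N + 1) → K) / Module.finrank ℚ K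

/-- the canonical height of `x` -/
noncomputable def canHeight (d : ℕ) (f : Fin N → MvPolynomial (Fin N) K) (x : Fin N → K) : ℝ :=
  limUnder atTop fun n => height ((polyMap f)^[n] x) / (d : ℝ) ^ n

end definitions

section bridge

variable {N : ℕ} {K : Type} [Field K] {d : ℕ} {f : Fin N → MvPolynomial (Fin N) K}

theorem mon_of (h : IsMonicMap d f) : DLN.Mon d f := by
  intro i α hα
  have h1 := h i
  rw [X_pow_eq_monomial] at h1
  have h2 := le_totalDegree (mem_support_iff.mpr hα)
  have h3 : (α.sum fun _ e => e) = α.degree := rfl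
  rw [h3] at h2
  rw [Finsupp.degree_single]
  omega

theorem dev_eq (N d : ℕ) : dev N d = DLN.dlt N d / 16 := by
  unfold dev DLN.dlt
  rw [div_div, mul_comm]

theorem rpow_eq (v : AbsoluteValue K ℝ) (s : ℝ) :
    radius v d f ^ s = Real.exp (s * Real.log (DLN.radius v d f)) := by
  have h : radius v d f = DLN.radius v d f := rfl
  rw [h, Real.rpow_def_of_pos (zero_lt_one.trans_le (DLN.one_le_radius v d f)), mul_comm]

theorem aeval_eq {L : Type} [Field L] [Algebra K L] (z : Fin N → L) (j : Fin N) :
    eval z (DLN.fL (algebraMap K L) f j) = aeval z (f j) := by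
  unfold DLN.fL
  rw [eval_map, aeval_def]

theorem split_of {v : AbsoluteValue K ℝ} (h : IsSplit v d f) : DLN.Split v d f := by
  obtain ⟨L, hL, hA, w, z, z', i, h1, h2, h3, h4⟩ := h
  refine ⟨L, hL, w, algebraMap K L, z, z', i, h1, fun j => ?_, fun j => ?_, ?_⟩
  · rw [aeval_eq, ← dev_eq, ← rpow_eq]
    exact h2 j
  · rw [aeval_eq, ← dev_eq, ← rpow_eq]
    exact h3 j
  · rw [← dev_eq, ← rpow_eq]
    exact h4

theorem thin_of {v : AbsoluteValue K ℝ} (h : IsThin v d f) : DLN.Thin v d f := by
  obtain ⟨L, hL, hA, w, z, i, h1, h2, h3⟩ := h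
  refine ⟨L, hL, w, algebraMap K L, z, i, h1, fun j => ?_, fun x _ => ?_⟩
  · rw [aeval_eq, ← dev_eq, ← rpow_eq]
    exact h2 j
  · rw [← dev_eq, ← rpow_eq, w.map_sub]
    exact h3 (x i)

end bridge

theorem result (N d : ℕ) (hN : 1 ≤ N) (hd : 2 ≤ d) : ∃ A c : ℝ, 0 < A ∧ 0 < c ∧
    ∀ ε : ℝ, 0 < ε → ε ≤ 1 → ∃ C : ℝ, 0 < C ∧ ∀ (κ : ℝ) (s : ℕ), 1 ≤ κ →
    ∃ c₁ C₁ : ℝ, 0 < c₁ ∧ 0 < C₁ ∧ ∀ D : ℕ, ∃ c₂ : ℝ, 0 < c₂ ∧
    ∀ (K : Type) [Field K] [NumberField K] (f : Fin N → MvPolynomial (Fin N) K)
      (V : Finset (AbsoluteValue K ℝ)), IsMonicMap d f → V.card ≤ s →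
      (∀ v ∈ V, IsSplit v d f ∨ (IsCentred d f ∧ ConstDominated ε v d f)) →
      mapHeight d f ≤ κ * share V d f →
      (∃ H : MvPolynomial (Fin N) K, H ≠ 0 ∧
        (H.totalDegree : ℝ) ≤ A * 2 ^ s * κ * Real.log (κ + 1) ∧
        ∀ x, canHeight d f x < c / κ * mapHeight d f - C * (Real.log (κ + 1) + s) →
          eval x H = 0) ∧
      ∀ x, HasDenseOrbit f x → c₁ * mapHeight d f - C₁ ≤ canHeight d f x ∧
        (Module.finrank ℚ K ≤ D → c₂ * (mapHeight d f + 1) ≤ canHeight d f x) := by
  classical
  obtain ⟨A, c, hA, hc, hmain⟩ := DLN.main N d hN hd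
  refine ⟨A, c, hA, hc, fun ε hε hε1 => ?_⟩
  obtain ⟨C, hC, hmain⟩ := hmain ε hε hε1
  refine ⟨C, hC, fun κ s hκ => ?_⟩
  obtain ⟨c₁, C₁, hc₁, hC₁, hmain⟩ := hmain κ s hκ
  refine ⟨c₁, C₁, hc₁, hC₁, fun D => ?_⟩
  obtain ⟨c₂, hc₂, hmain⟩ := hmain D
  refine ⟨c₂, hc₂, ?_⟩
  intro K _ _ f V hf hVs hV hH
  have hf' := mon_of hf
  have hn : (1 : ℝ) ≤ Module.finrank ℚ K := by exact_mod_cast Module.finrank_pos
  have hn0 : (0 : ℝ) < Module.finrank ℚ K := by linarith
  have e1 : mapHeight d f = DLN.hrad d f / Module.finrank ℚ K := rfl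
  have e2 : share V d f ≤ DLN.share V d f / Module.finrank ℚ K := by
    unfold share placeSum DLN.share Pool.Agent.Lib_helper5.DLH.tot
    refine div_le_div_of_nonneg_right ?_ hn0.le
    have key : ∀ v : AbsoluteValue K ℝ, (if v ∈ V ∨ IsThin v d f then
        Real.log (radius v d f) else 0) ≤ (if v ∈ V ∨ DLN.Thin v d f then
        Real.log (DLN.radius v d f) else 0) := by
      intro v
      by_cases h1 : v ∈ V ∨ IsThin v d f
      · rw [if_pos h1, if_pos (h1.imp_right thin_of)]
        exact le_rfl
      · rw [if_neg h1]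
        split_ifs
        · exact DLN.log_radius_nonneg' v d f
        · exact le_rfl
    refine add_le_add (Finset.sum_le_sum fun v _ =>
      mul_le_mul_of_nonneg_left (key v.val) (Nat.cast_nonneg _)) ?_
    refine finsum_le_finsum' ?_ ?_ fun v => key v.val
    · refine (DLN.fs_radius d f).subset fun w hw => ?_
      rw [Function.mem_support] at hw ⊢
      intro h0
      apply hw
      have h1 : Real.log (radius w.val d f) = 0 := h0
      simp only [h1, ite_self]
    · refine (DLN.fs_radius d f).subset fun w hw => ?_
      rw [Function.mem_support] at hw ⊢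
      intro h0
      apply hw
      simp only [h0, ite_self]
  have e3 : ∀ x, canHeight d f x = DLN.hat f d x / Module.finrank ℚ K := by
    intro x
    unfold canHeight
    have h1 := ((DLN.glob hd hf').tendsto_hat x).div_const (Module.finrank ℚ K : ℝ)
    refine (h1.congr fun n => ?_).limUnder_eq
    show DLN.ht _ / (d : ℝ) ^ n / _ = DLN.ht _ / _ / (d : ℝ) ^ n
    rw [div_div, div_div, mul_comm]
    rfl
  have hH' : DLN.hrad d f ≤ κ * DLN.share V d f := by
    have h1 := hH.trans (mul_le_mul_of_nonneg_left e2 (by linarith))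
    rw [e1, ← mul_div_assoc, div_le_div_iff_of_pos_right hn0] at h1
    exact h1
  obtain ⟨⟨H, m, h1, h2, h3, h4⟩, h5⟩ := hmain K f V hf' hVs
    (fun v hv => (hV v hv).imp_left split_of) hH'
  refine ⟨⟨H, h1, ?_, fun x hx => h4 x ?_⟩, fun x hx => ⟨?_, fun hD => ?_⟩⟩
  · have h6 : H.totalDegree ≤ m := by
      unfold totalDegree
      refine Finset.sup_le fun α hα => ?_
      exact h2 α (mem_support_iff.mp hα)
    calc (H.totalDegree : ℝ) ≤ m := by exact_mod_cast h6
      _ ≤ A * 2 ^ s * (κ * Real.log (κ + 1)) := h3
      _ = _ := by ring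
  · rw [e3, e1, div_lt_iff₀ hn0] at hx
    refine hx.trans_eq ?_
    field_simp
  · have h6 := (h5 x hx).1
    rw [e3, e1, le_div_iff₀ hn0]
    refine le_trans (le_of_eq ?_) h6
    field_simp
  · have h6 := (h5 x hx).2 hD
    rw [e3, e1, le_div_iff₀ hn0]
    refine le_trans (le_of_eq ?_) h6
    field_simp

end Pool.Agent.Results.MP_4f5c90_nt.AffineSpaceHeavyPlaces
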