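import Pool.Agent.Lib_helper95.FP.QFin

/-!
# The dynamical Lang inequality for rational maps of the projective line

A rational map `f` of degree `d` of the projective line over a field `L` is given by a pair
`F = (F 0, F 1)` of binary forms of degree `d`. The form with coefficients `a 0, …, a d` is
stored as the polynomial `a 0 + a 1 X + … + a d X ^ d`. A point of the projective line is given
by a vector `x = (x 0, x 1)`, and two vectors `x`, `y` give distinct points exactly when
`wedge x y ≠ 0`.

Let `K` be a number field of degree `n` and let `f` be a rational map of degree `d ≥ 2` over `K`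
with moduli height `h_Mod(f)`. Let `T` be a finite nonempty set of absolute values of `K`, let
`h_T(f)` be its part of the moduli height, and let `κ ≥ 1` be such that

  `n * h_Mod(f) ≤ κ * max (1, n * h_T(f))`.

For instance: `κ = 1` and `T` contains all the places which are archimedean or of bad reduction;
or `T` carries the proportion `1 / κ` of the moduli height; or, for an arbitrary `f`, the set `T`
has one element and `κ = max (1, n * h_Mod(f))`. Put `q = n + κ * |T|`. Then

* the canonical height of `f` is at least `exp (- A q log (q + 1)) * (h(f) + 1)` at every point of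
  the projective line over `K` with infinite orbit;
* among any `N ≥ A q log (q + 1)` distinct points of the projective line over `K` there is one
  whose canonical height is at least `(c / n) * (h(f) / (κ * |T|) + 1)`.

Here `h(f)` is the larger one of the moduli height and of a height given by regular functions on
the moduli space of rational maps of degree `d`. The positive constants `A`, `c` depend only on
`d` (and on the regular functions), not on `K`, `f`, `T`, `κ` and the points.
-/

set_option autoImplicit false

universe u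

namespace Pool.Agent.Results.MP_4f5c90_nt.FewPlaces

open Polynomial Height AdmissibleAbsValues

section maps

variable {L : Type*} [Field L]

/-- The value at `x = (x 0, x 1)` of the binary form `∑ a_j (x 0)^j (x 1)^(d-j)` of degree `d`
whose coefficients `a_j` are those of the polynomial `p`. -/
noncomputable def formVal (d : ℕ) (p : L[X]) (x : Fin 2 → L) : L :=
  ∑ j ∈ Finset.range (d + 1), p.coeff j * x 0 ^ j * x 1 ^ (d - j)

/-- The map `x ↦ (F 0 (x), F 1 (x))` given by a pair of binary forms of degree `d`. -/
noncomputable def mapVal (d : ℕ) (F : Fin 2 → L[X]) (x : Fin 2 → L) : Fin 2 → L :=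
  fun i => formVal d (F i) x

/-- The resultant of the two binary forms of degree `d`. -/
noncomputable def Res (d : ℕ) (F : Fin 2 → L[X]) : L := resultant (F 0) (F 1) d d

/-- `F` is a pair of binary forms of degree `d` with no common zero: a rational map of degree
`d` of the projective line. -/
structure IsRatMap (d : ℕ) (F : Fin 2 → L[X]) : Prop where
  deg : ∀ i, (F i).natDegree ≤ d
  res_ne : Res d F ≠ 0

/-- Two vectors give distinct points of the projective line iff this determinant is nonzero. -/
def wedge (x y : Fin 2 → L) : L := x 0 * y 1 - x 1 * y 0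

/-- The vector `P` gives a point of the projective line with infinite orbit under `F`. -/
def Wandering (d : ℕ) (F : Fin 2 → L[X]) (P : Fin 2 → L) : Prop :=
  ∀ m n : ℕ, m ≠ n → wedge ((mapVal d F)^[m] P) ((mapVal d F)^[n] P) ≠ 0

/-- The form `p` of degree `d` after the linear substitution `γ` (at `x 1 = 1`). -/
noncomputable def subst (d : ℕ) (p : L[X]) (γ : Matrix (Fin 2) (Fin 2) L) : L[X] :=
  ∑ j ∈ Finset.range (d + 1),
    C (p.coeff j) * (C (γ 0 0) * X + C (γ 0 1)) ^ j * (C (γ 1 0) * X + C (γ 1 1)) ^ (d - j)

/-- The conjugate `adj(γ) ∘ F ∘ γ` of `F` by an invertible matrix `γ`; as a rational map it is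
`γ⁻¹ ∘ F ∘ γ`. -/
noncomputable def conj (d : ℕ) (F : Fin 2 → L[X]) (γ : Matrix (Fin 2) (Fin 2) L) :
    Fin 2 → L[X] :=
  fun i => C (γ.adjugate i 0) * subst d (F 0) γ + C (γ.adjugate i 1) * subst d (F 1) γ

/-- The largest absolute value of a coefficient of `F`. -/
noncomputable def coeffMax (w : AbsoluteValue L ℝ) (d : ℕ) (F : Fin 2 → L[X]) : ℝ :=
  ⨆ ij : Fin 2 × Fin (d + 1), w ((F ij.1).coeff ij.2)

/-- The logarithm of `‖F‖ ^ (2 d) / |Res F|`; it does not change when `F` is multiplied by a
constant. -/
noncomputable def logRatio (w : AbsoluteValue L ℝ) (d : ℕ) (F : Fin 2 → L[X]) : ℝ :=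
  2 * d * Real.log (coeffMax w d F) - Real.log (w (Res d F))

end maps

section heights

variable {K : Type u} [Field K]

/-- The local moduli height of `F` at the absolute value `v` of `K`: the infimum of
`log (‖G‖ ^ (2 d) / |Res G|)` over all conjugates `G` of `F` by invertible matrices over fields
`L ⊇ K` with an absolute value extending `v`. It is at least `- log (2 d)!`, and for
nonarchimedean `v` it is at least `0`, with value `0` when `F` has potentially good
reduction. -/
noncomputable def localHeight (d : ℕ) (F : Fin 2 → K[X]) (v : AbsoluteValue K ℝ) : ℝ :=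
  sInf {ρ : ℝ | ∃ (L : Type u) (_ : Field L) (w : AbsoluteValue L ℝ) (φ : K →+* L)
    (γ : Matrix (Fin 2) (Fin 2) L), (∀ a, w (φ a) = v a) ∧ γ.det ≠ 0 ∧
      ρ = logRatio w d (conj d (fun i => (F i).map φ) γ)}

variable [NumberField K]

/-- The absolute logarithmic Weil height of the point of projective space with coordinates
`x`. -/
noncomputable def absHeight {ι : Type*} (x : ι → K) : ℝ := logHeight x / Module.finrank ℚ K

/-- The sum over all places of the number field `K` (with local degrees as multiplicities, in
the normalisation of the product formula), divided by the degree of `K`. -/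
noncomputable def placeMean (g : AbsoluteValue K ℝ → ℝ) : ℝ :=
  ((archAbsVal.map g).sum + ∑ᶠ v : nonarchAbsVal (K := K), g v.val) / Module.finrank ℚ K

/-- The moduli height of `F`. -/
noncomputable def modHeight (d : ℕ) (F : Fin 2 → K[X]) : ℝ := placeMean (localHeight d F)

/-- The part of the moduli height of `F` which comes from the absolute values in `T`. -/
noncomputable def modHeightAt (d : ℕ) (F : Fin 2 → K[X]) (T : Finset (AbsoluteValue K ℝ)) : ℝ :=
  placeMean (Set.indicator (T : Set (AbsoluteValue K ℝ)) (localHeight d F))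

variable (K) in
/-- The number `[K : ℚ] + κ |T|`. -/
noncomputable def complexity (κ : ℝ) (T : Finset (AbsoluteValue K ℝ)) : ℝ :=
  Module.finrank ℚ K + κ * T.card

/-- The canonical height `lim d ^ (-n) h (f ^ n (P))` of the point `P` exists and is `h`. -/
def HasCanHeight (d : ℕ) (F : Fin 2 → K[X]) (P : Fin 2 → K) (h : ℝ) : Prop :=
  Filter.Tendsto (fun n : ℕ => absHeight ((mapVal d F)^[n] P) / (d : ℝ) ^ n) Filter.atTop (nhds h)

end heights

section invariants

/-- The value of the integral polynomial `I` at the coefficients of `F`. -/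
noncomputable def evalAt {L : Type*} [Field L] (d : ℕ) (I : MvPolynomial (Fin 2 × Fin (d + 1)) ℤ)
    (F : Fin 2 → L[X]) : L :=
  MvPolynomial.aeval (fun ij : Fin 2 × Fin (d + 1) => (F ij.1).coeff ij.2) I

/-- `I / Res ^ m` is a regular function on the moduli space of rational maps of degree `d`:
`I` is an integral form of degree `2 d m` in the coefficients of the rational map, and it is an
invariant for conjugation, of the same weight as `Res ^ m`. -/
structure IsInvariant (d m : ℕ) (I : MvPolynomial (Fin 2 × Fin (d + 1)) ℤ) : Prop where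
  homog : I.IsHomogeneous (2 * d * m)
  inv : ∀ (L : Type u) [Field L] (F : Fin 2 → L[X]), (∀ i, (F i).natDegree ≤ d) →
    ∀ γ : Matrix (Fin 2) (Fin 2) L, γ.det ≠ 0 →
      evalAt d I (conj d F γ) = γ.det ^ (m * (d * (d + 1))) * evalAt d I F

/-- The absolute height of the point `[Res ^ m : I_1 : … : I_l]`, that is, the height of the
class of `F` in the moduli space given by the regular functions `I_k / Res ^ m`. -/
noncomputable def invHeight {K : Type u} [Field K] [NumberField K] (d m : ℕ) {l : ℕ}
    (I : Fin l → MvPolynomial (Fin 2 × Fin (d + 1)) ℤ) (F : Fin 2 → K[X]) : ℝ :=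
  absHeight (Fin.cons (Res d F ^ m) (fun k => evalAt d (I k) F) : Fin (l + 1) → K)

end invariants

open Lib_helper95.FP in
theorem coeffMax_eq {L : Type*} [Field L] (w : AbsoluteValue L ℝ) (d : ℕ) (F : Fin 2 → L[X]) :
    coeffMax w d F = nF w d F := by
  apply le_antisymm
  · apply ciSup_le
    intro ij
    exact le_nF w d F ij.1 ij.2 (Nat.lt_succ_iff.1 ij.2.2)
  · unfold nF
    apply Finset.sup'_le
    intro ij hij
    rw [Finset.mem_product, Finset.mem_range] at hij
    exact Finite.le_ciSup (fun ij : Fin 2 × Fin (d + 1) => w ((F ij.1).coeff ij.2))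
      (ij.1, ⟨ij.2, hij.2⟩)

open Lib_helper95.FP in
theorem localHeight_eq {K : Type u} [Field K] (d : ℕ) (F : Fin 2 → K[X])
    (v : AbsoluteValue K ℝ) : localHeight d F v = locRes d v F := by
  unfold localHeight locRes locSet
  congr 1
  ext ρ
  simp only [Set.mem_ofPred_eq]
  constructor
  · rintro ⟨L, i, w, φ, γ, h1, h2, h3⟩
    refine ⟨L, i, w, φ, γ, h1, h2, ?_⟩
    rw [h3]
    unfold logRatio
    rw [coeffMax_eq]
    rfl
  · rintro ⟨L, i, w, φ, γ, h1, h2, h3⟩
    refine ⟨L, i, w, φ, γ, h1, h2, ?_⟩
    rw [h3]
    unfold logRatio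
    rw [coeffMax_eq]
    rfl

/-- **The dynamical Lang inequality for rational maps of the projective line**, with explicit
dependence on the number of places which carry a given proportion of the moduli height. -/
theorem result (d : ℕ) (hd : 2 ≤ d) (m l : ℕ)
    (I : Fin l → MvPolynomial (Fin 2 × Fin (d + 1)) ℤ) (hI : ∀ k, IsInvariant.{u} d m (I k)) :
    ∃ A c : ℝ, 0 < A ∧ 0 < c ∧
      ∀ (K : Type u) [Field K] [NumberField K] (F : Fin 2 → K[X]), IsRatMap d F →
      ∀ T : Finset (AbsoluteValue K ℝ), T.Nonempty → ∀ κ : ℝ, 1 ≤ κ →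
      Module.finrank ℚ K * modHeight d F ≤ κ * max 1 (Module.finrank ℚ K * modHeightAt d F T) →
        (∀ P : Fin 2 → K, Wandering d F P → ∃ h : ℝ, HasCanHeight d F P h ∧
          Real.exp (-(A * (complexity K κ T * Real.log (complexity K κ T + 1)))) *
            (max (modHeight d F) (invHeight d m I F) + 1) ≤ h) ∧
        (∀ (N : ℕ) (x : Fin N → Fin 2 → K), (∀ i, x i ≠ 0) →
          (∀ i j, i ≠ j → wedge (x i) (x j) ≠ 0) →
          A * (complexity K κ T * Real.log (complexity K κ T + 1)) ≤ N →
          ∃ (i : Fin N) (h : ℝ), HasCanHeight d F (x i) h ∧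
            c / Module.finrank ℚ K *
              (max (modHeight d F) (invHeight d m I F) / (κ * T.card) + 1) ≤ h) := by
  classical
  have hI' : ∀ k, Lib_helper95.FP.Inv.{u} d m (I k) := fun k => ⟨(hI k).homog, (hI k).inv⟩
  obtain ⟨A, c, hA, hc, hmain⟩ := Lib_helper95.FP.quant_final.{u} d hd m l I hI'
  refine ⟨A, c, hA, hc, ?_⟩
  intro K _ _ F hF T hT κ hκ hδT
  have hG : Lib_helper95.FP.Good d F := ⟨hd, hF.deg, hF.res_ne⟩
  have hn0 : (0 : ℝ) < Module.finrank ℚ K := by exact_mod_cast Module.finrank_pos
  have e1 : modHeight d F = Lib_helper95.FP.placeSum (fun v => Lib_helper95.FP.locRes d v F) /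
      Module.finrank ℚ K := by
    unfold modHeight placeMean Lib_helper95.FP.placeSum
    simp only [localHeight_eq]
  have e2 : modHeightAt d F T = Lib_helper95.FP.placeSum
      (fun v => if v ∈ T then Lib_helper95.FP.locRes d v F else 0) / Module.finrank ℚ K := by
    have e : Set.indicator (T : Set (AbsoluteValue K ℝ)) (localHeight d F) =
        fun v => if v ∈ T then Lib_helper95.FP.locRes d v F else 0 := by
      funext v
      rw [Set.indicator_apply, localHeight_eq]
      simp only [Finset.mem_coe]
    unfold modHeightAt
    rw [e]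
    rfl
  have e3 : invHeight d m I F = logHeight (Lib_helper95.FP.modPoint d m I F) /
      Module.finrank ℚ K := rfl
  have e4 : max (modHeight d F) (invHeight d m I F) =
      max (Lib_helper95.FP.placeSum (fun v => Lib_helper95.FP.locRes d v F))
        (logHeight (Lib_helper95.FP.modPoint d m I F)) / Module.finrank ℚ K := by
    rw [e1, e3, max_div_div_right hn0.le]
  rw [e1, e2, mul_div_cancel₀ _ hn0.ne', mul_div_cancel₀ _ hn0.ne'] at hδT
  obtain ⟨h1, h2⟩ := hmain K F hG T hT κ hκ hδT
  rw [e4]
  have hcan : ∀ P : Fin 2 → K, P ≠ 0 → HasCanHeight d F P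
      (Lib_helper95.FP.canHeight d F P / Module.finrank ℚ K) := by
    intro P hP
    have h3 := (Lib_helper95.FP.tendsto_can hG P hP).div_const (Module.finrank ℚ K : ℝ)
    refine h3.congr fun n => ?_
    unfold absHeight
    rw [div_right_comm]
    rfl
  refine ⟨fun P hP => ?_, fun N x hx0 hx hN => ?_⟩
  · have hP0 : P ≠ 0 := Lib_helper95.FP.ne_zero_of_wd (hP 0 1 (by norm_num))
    exact ⟨_, hcan P hP0, h2 P hP⟩
  · obtain ⟨i, hi⟩ := h1 N x hx hN
    exact ⟨i, _, hcan _ (hx0 i), hi⟩

end Pool.Agent.Results.MP_4f5c90_nt.FewPlaces
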