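import Pool.Agent.Lib_helper5.DLH.Fin

/-!
# MP_4f5c90_nt: Lang's height inequality for `X ^ d + c`, uniformly in the number of bad places

Let `d ≥ 3`.  A finite place `w` of the number field `L` is `Good` for `c` if `w` does not divide
`d` and the residue field of `w` does not contain all `d`-th roots of unity (`d ∤ N(w) - 1`), or if
`|z ^ d + c| ≥ |c|` at `w` for all `z` in `L`.  The theorem: if a fixed proportion of the height of
`c` comes from good finite places and real places, then the canonical height of a wandering point is
at least a constant times `max 1 h(c)`.  The number of the bad places does not occur.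

Proof idea.  Let `R = max (1, |c|) ^ (1 / d)`.  At every place the points of small canonical height
lie in the disc of radius `R` (up to a factor 4), together with their images, so the Vandermonde
determinant of `N` such points is at most `R ^ (N ^ 2 / (2 d ^ k) + N d ^ k)` at every place: use
the basis `z ^ i f^k(z) ^ j`.  This is `R ^ (o(1) N ^ 2)`.  At a good place the points of small height
which are rational over `L` lie near at most `d - 2` of the `d` roots of `f`, so there is a
monic polynomial `G` of degree at most `d - 2` which is at most `R ^ (-1)` at all the points, and
the basis `z ^ i G(z) ^ j` gives a Vandermonde determinant `R ^ (-c N ^ 2)`.  The product formula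
gives a contradiction if `N` is large.  The excess of the points over `R` is bounded by the canonical
height.
-/

set_option autoImplicit false

namespace Pool.Agent.Results.MP_4f5c90_nt.UnicriticalThinPlaces

open Polynomial NumberField Pool.Agent.Lib_helper5.DLH

theorem result.{u} (d : ℕ) (hd : 3 ≤ d) (ε : ℝ) (hε : 0 < ε) :
    ∃ (N : ℕ) (κ C : ℝ), 0 < κ ∧ ∀ D : ℕ, ∃ κ' : ℝ, 0 < κ' ∧
      ∀ (L : Type u) [Field L] [NumberField L] (c : L), ε * height c ≤ goodPart d c →
      (∀ Z : Finset L, (∀ z ∈ Z, canHeight (X ^ d + Polynomial.C c) z < κ * height c - C) →
        Z.card < N) ∧
      (Module.finrank ℚ L ≤ D → ∀ a : L, Wandering (X ^ d + Polynomial.C c) a →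
        κ' * max 1 (height c) ≤ canHeight (X ^ d + Polynomial.C c) a) :=
  uni_thm hd hε

end Pool.Agent.Results.MP_4f5c90_nt.UnicriticalThinPlaces
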